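import Pool.Agent.N367.CORE.Main

/-! For a standard graded algebra `A` over an infinite field, localized at `A_+`, the core of the
maximal ideal is the extension of the core of `A_+` (all reductions, homogeneous or not). -/

namespace Pool.Agent.Results.MP_429122_al.CoreLocalizes

open Pool.Agent.N367.CORE

universe u v w

theorem result : ∀ (k : Type u) [Field k] [Infinite k] (A : Type v) [CommRing A] [Algebra k A]
    (𝒜 : ℕ → Submodule k A) [GradedAlgebra 𝒜], StandardGraded 𝒜 →
    ∃ _ : (Aplus 𝒜).IsMaximal, ∀ (R : Type w) [CommRing R] [Algebra A R] [IsLocalRing R]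
      [IsLocalization.AtPrime R (Aplus 𝒜)],
      core (IsLocalRing.maximalIdeal R) = (core (Aplus 𝒜)).map (algebraMap A R) :=
  fun k _ _ A _ _ 𝒜 _ h => localizes k A 𝒜 h

end Pool.Agent.Results.MP_429122_al.CoreLocalizes
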